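import Mathlib

open Finset

namespace Pool.Agent.Results.MP_80d245_co.SquaredContents

/-! ### Statement-level definitions -/

/-- `row p i` is the `i`-th part `λ_i` (parts listed in decreasing order, `i ≥ 1`),
and `0` beyond the number of parts. -/
def row {n : ℕ} (p : n.Partition) (i : ℕ) : ℕ := (p.parts.sort (· ≥ ·)).getD (i - 1) 0

/-- `col p j` is the `j`-th part of the conjugate partition: the number of parts `≥ j`. -/
def col {n : ℕ} (p : n.Partition) (j : ℕ) : ℕ := (p.parts.filter (fun x => j ≤ x)).card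

/-- The cells `(i, j)` with `i ≥ 1` and `1 ≤ j ≤ λ_i` of the Young diagram. -/
def cells {n : ℕ} (p : n.Partition) : Finset (ℕ × ℕ) :=
  ((Icc 1 n) ×ˢ (Icc 1 n)).filter (fun u => u.2 ≤ row p u.1)

/-- hook length, from the row function `f = λ` and the column function `g = λ^t`. -/
def hook (f g : ℕ → ℕ) (u : ℕ × ℕ) : ℤ := ((f u.1 : ℤ) - u.2) + ((g u.2 : ℤ) - u.1) + 1

/-- symplectic content of the cell `u = (i, j)`. -/
def csp (f g : ℕ → ℕ) (u : ℕ × ℕ) : ℤ :=
  if u.2 < u.1 then ((f u.1 : ℤ) - u.1) + ((f u.2 : ℤ) - u.2) + 2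
  else -((g u.1 : ℤ) - u.1) - ((g u.2 : ℤ) - u.2)

/-- orthogonal content of the cell `u = (i, j)`. -/
def cO (f g : ℕ → ℕ) (u : ℕ × ℕ) : ℤ :=
  if u.2 ≤ u.1 then ((f u.1 : ℤ) - u.1) + ((f u.2 : ℤ) - u.2)
  else -((g u.1 : ℤ) - u.1) - ((g u.2 : ℤ) - u.2) - 2

/-- `S_sp(n)`. -/
noncomputable def Ssp (n : ℕ) : ℚ :=
  ∑ p : n.Partition, ∏ u ∈ cells p,
    ((csp (row p) (col p) u : ℚ) / (hook (row p) (col p) u : ℚ)) ^ 2

/-- `S_O(n)`. -/
noncomputable def SO (n : ℕ) : ℚ :=
  ∑ p : n.Partition, ∏ u ∈ cells p,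
    ((cO (row p) (col p) u : ℚ) / (hook (row p) (col p) u : ℚ)) ^ 2

/-! ### The two cases for a single partition -/

def Conj (f g : ℕ → ℕ) : Prop := ∀ i j, 1 ≤ i → 1 ≤ j → (j ≤ f i ↔ i ≤ g j)

def TP (f g : ℕ → ℕ) : Prop := ∀ i, 1 ≤ i → i ≤ f i → g i = f i + 1

lemma Conj.symm {f g : ℕ → ℕ} (h : Conj f g) : Conj g f := fun i j hi hj => (h j i hj hi).symm

lemma Conj.anti {f g : ℕ → ℕ} (h : Conj f g) {i j : ℕ} (hi : 1 ≤ i) (hij : i ≤ j) : f j ≤ f i := by
  by_contra hc
  push Not at hc
  have h1 : 1 ≤ f j := by omega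
  have := (h j (f j) (by omega) h1).1 le_rfl
  have h2 := (h i (f j) hi h1).2 (by omega)
  omega

lemma cellA {f g : ℕ → ℕ} (h : Conj f g) (hT : TP f g) {i j : ℕ} (hi : 1 ≤ i) (hj : 1 ≤ j)
    (hc : j ≤ f i) : (csp f g (i, j)) ^ 2 = (hook f g (i, j)) ^ 2 := by
  unfold csp hook
  simp only
  split_ifs with hlt
  · -- j < i
    have hij : i ≤ g j := (h i j hi hj).1 hc
    have h1 : j ≤ f j := (h j j hj hj).2 (by omega)
    have := hT j hj h1
    rw [this]; push_cast; ring
  · push Not at hlt
    have h1 : i ≤ f i := by omega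
    have := hT i hi h1
    rw [this]; push_cast; ring

lemma cellB {f g : ℕ → ℕ} (h : Conj f g) (hT : ¬ TP f g) (N : ℕ) (hN : ∀ i, 1 ≤ i → f i ≤ N) :
    ∃ i j, 1 ≤ i ∧ 1 ≤ j ∧ j ≤ f i ∧ csp f g (i, j) = 0 := by
  classical
  unfold TP at hT
  push Not at hT
  -- largest violating index
  obtain ⟨i0, hi0, hi0f, hi0v⟩ := hT
  let S := (Finset.Icc 1 N).filter (fun i => i ≤ f i ∧ g i ≠ f i + 1)
  have hS : S.Nonempty := ⟨i0, by
    simp only [S, Finset.mem_filter, Finset.mem_Icc]
    exact ⟨⟨hi0, by have := hN i0 hi0; omega⟩, hi0f, hi0v⟩⟩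
  obtain ⟨i, hiS, himax⟩ := S.exists_max_image id hS
  simp only [S, Finset.mem_filter, Finset.mem_Icc, id] at hiS himax
  obtain ⟨⟨hi1, hiN⟩, hif, hiv⟩ := hiS
  have hgood : ∀ k, i < k → k ≤ f k → g k = f k + 1 := by
    intro k hk hkf
    by_contra hc
    have := himax k ⟨⟨by omega, by have := hN k (by omega); omega⟩, hkf, hc⟩
    omega
  have hgi : i ≤ g i := (h i i hi1 hi1).1 hif
  rcases lt_or_ge (f i + 1) (g i) with hlt | hge
  · -- row i' = f i + 2 has length exactly i
    refine ⟨f i + 2, i, by omega, hi1, (h _ _ (by omega) hi1).2 (by omega), ?_⟩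
    have hlen : f (f i + 2) = i := by
      have h1 : i ≤ f (f i + 2) := (h _ _ (by omega) hi1).2 (by omega)
      by_contra hne
      have h2 : i + 1 ≤ f (f i + 2) := by omega
      have h3 : f i + 2 ≤ g (i + 1) := (h _ _ (by omega) (by omega)).1 h2
      by_cases hd : i + 1 ≤ f (i + 1)
      · have h4 := hgood (i + 1) (by omega) hd
        have h5 := h.anti hi1 (show i ≤ i + 1 by omega)
        omega
      · apply hd
        exact (h (i+1) (i+1) (by omega) (by omega)).2 (by omega)
    unfold csp
    simp only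
    rw [if_pos (by omega), hlen]
    push_cast; ring
  · have hlt' : g i < f i + 1 := lt_of_le_of_ne hge hiv
    -- column g i has length exactly i
    have hcell : g i ≤ f i := by omega
    have hlen : g (g i) = i := by
      have h1 : i ≤ g (g i) := (h _ _ hi1 (by omega)).1 hcell
      by_contra hne
      have h2 : i + 1 ≤ g (g i) := by omega
      have h3 : g i ≤ f (i + 1) := (h _ _ (by omega) (by omega)).2 h2
      by_cases hd : i + 1 ≤ f (i + 1)
      · have h4 := hgood (i + 1) (by omega) hd
        have h5 := h.symm.anti hi1 (show i ≤ i + 1 by omega)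
        omega
      · -- f (i+1) ≤ i, so g i ≤ i, so g i = i
        have h6 : g i = i := by omega
        rw [h6] at h2
        omega
    refine ⟨i, g i, hi1, by omega, hcell, ?_⟩
    unfold csp
    simp only
    rw [if_neg (by omega), hlen]
    ring


/-! ### Diagrams with Frobenius coordinates `(a - 1 | a)` -/

def TY (μ : YoungDiagram) : Prop := ∀ i, (i, i) ∈ μ → μ.colLen i = μ.rowLen i + 1

/-- membership condition for the diagram attached to a finite set of positive integers -/
def Cond (A : Finset ℕ) (i j : ℕ) : Prop :=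
  if i ≤ j then i < (A.filter (fun a => j - i < a)).card
  else j < (A.filter (fun a => i - j ≤ a)).card

instance (A : Finset ℕ) (i j : ℕ) : Decidable (Cond A i j) := by
  unfold Cond; infer_instance

lemma card_filter_succ (A : Finset ℕ) (c : ℕ) :
    (A.filter (fun a => c ≤ a)).card ≤ (A.filter (fun a => c + 1 ≤ a)).card + 1 := by
  have : A.filter (fun a => c ≤ a) ⊆ insert c (A.filter (fun a => c + 1 ≤ a)) := by
    intro a ha
    simp only [mem_filter, mem_insert] at ha ⊢
    rcases eq_or_lt_of_le ha.2 with h | h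
    · exact Or.inl h.symm
    · exact Or.inr ⟨ha.1, h⟩
  exact (card_le_card this).trans (card_insert_le _ _)

lemma card_filter_mono (A : Finset ℕ) {c d : ℕ} (h : c ≤ d) :
    (A.filter (fun a => d ≤ a)).card ≤ (A.filter (fun a => c ≤ a)).card := by
  apply card_le_card
  intro a ha
  simp only [mem_filter] at ha ⊢
  exact ⟨ha.1, h.trans ha.2⟩

lemma cond_iff (A : Finset ℕ) (i j : ℕ) : Cond A i j ↔
    if i ≤ j then i < (A.filter (fun a => j - i + 1 ≤ a)).card
    else j < (A.filter (fun a => i - j ≤ a)).card := Iff.rfl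

lemma cond_left (A : Finset ℕ) {i j : ℕ} (h : Cond A (i + 1) j) : Cond A i j := by
  rw [cond_iff] at h ⊢
  rcases lt_trichotomy i j with hij | hij | hij
  · rw [if_pos (show i + 1 ≤ j by omega)] at h
    rw [if_pos hij.le]
    have e : j - i + 1 = (j - (i + 1) + 1) + 1 := by omega
    have := card_filter_succ A (j - (i + 1) + 1)
    rw [← e] at this
    omega
  · subst hij
    rw [if_neg (by omega)] at h
    rw [if_pos le_rfl]
    rw [show i + 1 - i = 1 by omega] at h
    rw [show i - i + 1 = 1 by omega]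
    exact h
  · rw [if_neg (by omega)] at h ⊢
    have := card_filter_mono A (show i - j ≤ i + 1 - j by omega)
    omega

lemma cond_up (A : Finset ℕ) {i j : ℕ} (h : Cond A i (j + 1)) : Cond A i j := by
  rw [cond_iff] at h ⊢
  rcases lt_trichotomy i (j + 1) with hij | hij | hij
  · rw [if_pos hij.le] at h
    rw [if_pos (by omega)]
    have := card_filter_mono A (show j - i + 1 ≤ j + 1 - i + 1 by omega)
    omega
  · subst hij
    rw [if_pos le_rfl] at h
    rw [if_neg (by omega)]
    rw [show j + 1 - (j + 1) + 1 = 1 by omega] at h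
    rw [show j + 1 - j = 1 by omega]
    omega
  · rw [if_neg (by omega)] at h ⊢
    have e : i - j = (i - (j + 1)) + 1 := by omega
    have := card_filter_succ A (i - (j + 1))
    rw [← e] at this
    omega

lemma cond_bound (A : Finset ℕ) {i j : ℕ} (h : Cond A i j) :
    i < A.sup id + A.card + 1 ∧ j < A.sup id + A.card + 1 := by
  rw [cond_iff] at h
  have hb : ∀ (P : ℕ → Prop) [DecidablePred P], (A.filter P).card ≤ A.card :=
    fun P _ => card_filter_le _ _
  split_ifs at h with h1
  · have hpos : 0 < (A.filter (fun a => j - i + 1 ≤ a)).card := by omega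
    obtain ⟨a, ha⟩ := card_pos.1 hpos
    simp only [mem_filter] at ha
    have : a ≤ A.sup id := le_sup (f := id) ha.1
    have := hb (fun a => j - i + 1 ≤ a)
    omega
  · have hpos : 0 < (A.filter (fun a => i - j ≤ a)).card := by omega
    obtain ⟨a, ha⟩ := card_pos.1 hpos
    simp only [mem_filter] at ha
    have : a ≤ A.sup id := le_sup (f := id) ha.1
    have := hb (fun a => i - j ≤ a)
    omega

/-- The Young diagram with Frobenius coordinates `(a - 1 | a)`, `a ∈ A`. -/
def YA (A : Finset ℕ) : YoungDiagram where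
  cells := ((range (A.sup id + A.card + 1)) ×ˢ (range (A.sup id + A.card + 1))).filter
    (fun c => Cond A c.1 c.2)
  isLowerSet := by
    rintro ⟨i, j⟩ ⟨i', j'⟩ hle hmem
    simp only [coe_filter, mem_product, mem_range, Set.mem_ofPred_eq] at hmem ⊢
    have hi : i' ≤ i := hle.1
    have hj : j' ≤ j := hle.2
    have hc : Cond A i' j' := by
      have key1 : ∀ k, Cond A i (j' + k) → Cond A i j' := by
        intro k
        induction k with
        | zero => exact id
        | succ k ih => exact fun h => ih (cond_up A h)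
      have key2 : ∀ k, Cond A (i' + k) j' → Cond A i' j' := by
        intro k
        induction k with
        | zero => exact id
        | succ k ih => exact fun h => ih (cond_left A h)
      have h1 : Cond A i j' := key1 (j - j') (by rw [Nat.add_sub_cancel' hj]; exact hmem.2)
      exact key2 (i - i') (by rw [Nat.add_sub_cancel' hi]; exact h1)
    exact ⟨⟨(cond_bound A hc).1, (cond_bound A hc).2⟩, hc⟩

lemma mem_YA (A : Finset ℕ) (i j : ℕ) : (i, j) ∈ YA A ↔ Cond A i j := by
  rw [← YoungDiagram.mem_cells]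
  simp only [YA, mem_filter, mem_product, mem_range]
  exact ⟨fun h => h.2, fun h => ⟨⟨(cond_bound A h).1, (cond_bound A h).2⟩, h⟩⟩

lemma mem_YA_le (A : Finset ℕ) {i j : ℕ} (h : i ≤ j) :
    (i, j) ∈ YA A ↔ i < (A.filter (fun a => j - i + 1 ≤ a)).card := by
  rw [mem_YA, cond_iff, if_pos h]

lemma mem_YA_gt (A : Finset ℕ) {i j : ℕ} (h : j < i) :
    (i, j) ∈ YA A ↔ j < (A.filter (fun a => i - j ≤ a)).card := by
  rw [mem_YA, cond_iff, if_neg (by omega)]

lemma TY_YA (A : Finset ℕ) : TY (YA A) := by
  intro i hi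
  have key : ∀ j, i ≤ j → ((i, j) ∈ YA A ↔ (j + 1, i) ∈ YA A) := by
    intro j hj
    rw [mem_YA_le A hj, mem_YA_gt A (by omega), show j + 1 - i = j - i + 1 by omega]
  have hr : i < (YA A).rowLen i := YoungDiagram.mem_iff_lt_rowLen.1 hi
  have h1 := key ((YA A).rowLen i) hr.le
  have h2 := key ((YA A).rowLen i - 1) (by omega)
  rw [YoungDiagram.mem_iff_lt_rowLen, YoungDiagram.mem_iff_lt_colLen] at h1 h2
  have : (YA A).rowLen i - 1 < (YA A).rowLen i := by omega
  have h3 := h2.1 this
  have h4 : ¬ ((YA A).rowLen i + 1 < (YA A).colLen i) := fun h => absurd (h1.2 h) (lt_irrefl _)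
  omega

/-- leg lengths on the diagonal -/
def leg (μ : YoungDiagram) (i : ℕ) : ℕ := μ.colLen i - (i + 1)

def diagSet (μ : YoungDiagram) : Finset ℕ := (range (μ.colLen 0)).filter (fun i => (i, i) ∈ μ)

lemma mem_diagSet (μ : YoungDiagram) (i : ℕ) : i ∈ diagSet μ ↔ (i, i) ∈ μ := by
  simp only [diagSet, mem_filter, mem_range, and_iff_right_iff_imp]
  intro h
  exact YoungDiagram.mem_iff_lt_colLen.1 (μ.up_left_mem le_rfl (Nat.zero_le _) h)

def AY (μ : YoungDiagram) : Finset ℕ := (diagSet μ).image (leg μ)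

lemma leg_anti {μ : YoungDiagram} {i j : ℕ} (hij : i < j) (hj : (j, j) ∈ μ) :
    leg μ j < leg μ i := by
  have h1 : j < μ.colLen j := YoungDiagram.mem_iff_lt_colLen.1 hj
  have h2 := μ.colLen_anti i j hij.le
  unfold leg
  omega

lemma leg_injOn (μ : YoungDiagram) : Set.InjOn (leg μ) (diagSet μ) := by
  intro i hi j hj h
  rw [mem_coe, mem_diagSet] at hi hj
  rcases lt_trichotomy i j with hlt | heq | hgt
  · have := leg_anti hlt hj; omega
  · exact heq
  · have := leg_anti hgt hi; omega

lemma AY_pos {μ : YoungDiagram} (hT : TY μ) {a : ℕ} (ha : a ∈ AY μ) : 0 < a := by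
  simp only [AY, mem_image, mem_diagSet] at ha
  obtain ⟨i, hi, rfl⟩ := ha
  have h1 := hT i hi
  have h2 : i < μ.rowLen i := YoungDiagram.mem_iff_lt_rowLen.1 hi
  unfold leg; omega

/-- counting elements of `AY μ` above a level `c ≥ 1`: they form an initial segment -/
lemma lt_card_filter_AY (μ : YoungDiagram) (c i : ℕ) :
    i < ((AY μ).filter (fun a => c ≤ a)).card ↔ ((i, i) ∈ μ ∧ c ≤ leg μ i) := by
  have e : (AY μ).filter (fun a => c ≤ a) = ((diagSet μ).filter (fun i => c ≤ leg μ i)).image (leg μ) := by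
    ext a
    simp only [AY, mem_filter, mem_image]
    constructor
    · rintro ⟨⟨k, hk, rfl⟩, hc⟩; exact ⟨k, ⟨hk, hc⟩, rfl⟩
    · rintro ⟨k, ⟨hk, hc⟩, rfl⟩; exact ⟨⟨k, hk, rfl⟩, hc⟩
  rw [e, card_image_of_injOn]
  swap
  · exact (leg_injOn μ).mono (by
      intro k hk
      exact (mem_filter.1 hk).1)
  -- lower set
  have hlow : ∀ k l, k ≤ l → l ∈ (diagSet μ).filter (fun i => c ≤ leg μ i) →
      k ∈ (diagSet μ).filter (fun i => c ≤ leg μ i) := by
    intro k l hkl hl
    simp only [mem_filter, mem_diagSet] at hl ⊢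
    refine ⟨μ.up_left_mem hkl hkl hl.1, ?_⟩
    rcases eq_or_lt_of_le hkl with rfl | h
    · exact hl.2
    · exact hl.2.trans (leg_anti h hl.1).le
  have hmem : (i ∈ (diagSet μ).filter (fun i => c ≤ leg μ i)) ↔ ((i, i) ∈ μ ∧ c ≤ leg μ i) := by
    simp only [mem_filter, mem_diagSet]
  rw [← hmem]
  constructor
  · intro h
    by_contra hc
    have : (diagSet μ).filter (fun i => c ≤ leg μ i) ⊆ range i := by
      intro k hk
      rw [mem_range]
      by_contra hki
      exact hc (hlow i k (by omega) hk)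
    have := card_le_card this
    rw [card_range] at this
    omega
  · intro h
    have : range (i + 1) ⊆ (diagSet μ).filter (fun i => c ≤ leg μ i) := by
      intro k hk
      rw [mem_range] at hk
      exact hlow k i (by omega) h
    have := card_le_card this
    rw [card_range] at this
    omega

lemma YA_AY {μ : YoungDiagram} (hT : TY μ) : YA (AY μ) = μ := by
  apply SetLike.ext
  rintro ⟨i, j⟩
  rcases le_or_gt i j with h | h
  · rw [mem_YA_le _ h, lt_card_filter_AY]
    constructor
    · rintro ⟨hd, hl⟩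
      have h1 := hT i hd
      rw [YoungDiagram.mem_iff_lt_rowLen]
      unfold leg at hl
      omega
    · intro hm
      have hd : (i, i) ∈ μ := μ.up_left_mem le_rfl h hm
      refine ⟨hd, ?_⟩
      have h1 := hT i hd
      rw [YoungDiagram.mem_iff_lt_rowLen] at hm
      unfold leg
      omega
  · rw [mem_YA_gt _ h, lt_card_filter_AY]
    constructor
    · rintro ⟨hd, hl⟩
      rw [YoungDiagram.mem_iff_lt_colLen]
      unfold leg at hl
      omega
    · intro hm
      have hd : (j, j) ∈ μ := μ.up_left_mem h.le le_rfl hm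
      refine ⟨hd, ?_⟩
      rw [YoungDiagram.mem_iff_lt_colLen] at hm
      unfold leg
      omega

lemma AY_YA {A : Finset ℕ} (hA : 0 ∉ A) : AY (YA A) = A := by
  have hsub : A ⊆ AY (YA A) := by
    intro c hc
    have hc0 : c ≠ 0 := fun h => hA (h ▸ hc)
    simp only [AY, mem_image, mem_diagSet]
    set i := (A.filter (fun a => c + 1 ≤ a)).card with hi
    have hlt : i < (A.filter (fun a => c ≤ a)).card := by
      apply card_lt_card
      rw [ssubset_iff_of_subset]
      · exact ⟨c, by simp [hc], by simp⟩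
      · intro a ha
        simp only [mem_filter] at ha ⊢
        exact ⟨ha.1, by omega⟩
    have hd : (i, i) ∈ YA A := by
      rw [mem_YA_le A le_rfl, Nat.sub_self]
      exact hlt.trans_le (card_filter_mono A (by omega))
    refine ⟨i, hd, ?_⟩
    have h1 : (i + c, i) ∈ YA A := by
      rw [mem_YA_gt A (by omega), Nat.add_sub_cancel_left]
      exact hlt
    have h2 : (i + c + 1, i) ∉ YA A := by
      rw [mem_YA_gt A (by omega), show i + c + 1 - i = c + 1 by omega, ← hi]
      exact lt_irrefl _
    rw [YoungDiagram.mem_iff_lt_colLen] at h1 h2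
    unfold leg
    omega
  refine (eq_of_subset_of_card_le hsub ?_).symm
  calc (AY (YA A)).card ≤ (diagSet (YA A)).card := card_image_le
    _ ≤ (range A.card).card := by
        apply card_le_card
        intro i hi
        rw [mem_diagSet, mem_YA_le A le_rfl] at hi
        rw [mem_range]
        exact hi.trans_le (card_filter_le _ _)
    _ = A.card := card_range _

/-- number of cells through diagonal hooks -/
lemma card_eq_sum_hooks (μ : YoungDiagram) :
    μ.card = ∑ i ∈ diagSet μ, ((μ.rowLen i - i) + (μ.colLen i - (i + 1))) := by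
  have hcells : μ.cells = (diagSet μ).biUnion (fun i =>
      ((Finset.Ico i (μ.rowLen i)).image (fun j => (i, j))) ∪
      ((Finset.Ico (i + 1) (μ.colLen i)).image (fun j => (j, i)))) := by
    ext ⟨a, b⟩
    simp only [mem_biUnion, mem_diagSet, mem_union, mem_image, mem_Ico, Prod.mk.injEq,
      YoungDiagram.mem_cells]
    constructor
    · intro h
      rcases le_or_gt a b with hab | hab
      · exact ⟨a, μ.up_left_mem le_rfl hab h, Or.inl ⟨b, ⟨hab, YoungDiagram.mem_iff_lt_rowLen.1 h⟩, rfl, rfl⟩⟩
      · exact ⟨b, μ.up_left_mem hab.le le_rfl h, Or.inr ⟨a, ⟨hab, YoungDiagram.mem_iff_lt_colLen.1 h⟩, rfl, rfl⟩⟩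
    · rintro ⟨i, hi, ⟨j, ⟨h1, h2⟩, rfl, rfl⟩ | ⟨j, ⟨h1, h2⟩, rfl, rfl⟩⟩
      · exact YoungDiagram.mem_iff_lt_rowLen.2 h2
      · exact YoungDiagram.mem_iff_lt_colLen.2 h2
  rw [YoungDiagram.card, hcells, card_biUnion]
  · apply sum_congr rfl
    intro i hi
    rw [card_union_of_disjoint, card_image_of_injective, card_image_of_injective, Nat.card_Ico,
      Nat.card_Ico]
    · intro x y hxy; simpa using hxy
    · intro x y hxy; simpa using hxy
    · rw [disjoint_left]
      rintro ⟨a, b⟩ h1 h2
      simp only [mem_image, mem_Ico, Prod.mk.injEq] at h1 h2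
      obtain ⟨j, ⟨_, _⟩, rfl, rfl⟩ := h1
      obtain ⟨k, ⟨_, _⟩, h3, h4⟩ := h2
      omega
  · intro i hi k hk hik
    rw [Function.onFun, disjoint_left]
    rintro ⟨a, b⟩ h1 h2
    simp only [mem_union, mem_image, mem_Ico, Prod.mk.injEq] at h1 h2
    rcases h1 with ⟨j, ⟨_, _⟩, h3, h4⟩ | ⟨j, ⟨_, _⟩, h3, h4⟩ <;>
    rcases h2 with ⟨l, ⟨_, _⟩, h5, h6⟩ | ⟨l, ⟨_, _⟩, h5, h6⟩ <;> omega

lemma card_eq_two_mul_sum {μ : YoungDiagram} (hT : TY μ) : μ.card = 2 * ∑ a ∈ AY μ, a := by
  rw [card_eq_sum_hooks, AY, sum_image (fun i hi j hj h => leg_injOn μ hi hj h), mul_sum]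
  apply sum_congr rfl
  intro i hi
  rw [mem_diagSet] at hi
  have h1 := hT i hi
  have h2 : i < μ.rowLen i := YoungDiagram.mem_iff_lt_rowLen.1 hi
  unfold leg
  omega


/-! ### Partitions and Young diagrams -/

def sp {n : ℕ} (p : n.Partition) : List ℕ := p.parts.sort (· ≥ ·)

lemma sp_sorted {n : ℕ} (p : n.Partition) : (sp p).SortedGE :=
  (Multiset.pairwise_sort p.parts (· ≥ ·)).sortedGE

lemma sp_coe {n : ℕ} (p : n.Partition) : ((sp p : List ℕ) : Multiset ℕ) = p.parts :=
  Multiset.sort_eq _ _

def toYD {n : ℕ} (p : n.Partition) : YoungDiagram := YoungDiagram.ofRowLens (sp p) (sp_sorted p)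

lemma mem_toYD {n : ℕ} (p : n.Partition) (i j : ℕ) :
    (i, j) ∈ toYD p ↔ j < (sp p).getD i 0 := by
  unfold toYD
  rw [YoungDiagram.mem_ofRowLens]
  simp only
  constructor
  · rintro ⟨h, h2⟩
    rwa [List.getD_eq_getElem _ _ h]
  · intro h
    by_cases hi : i < (sp p).length
    · refine ⟨hi, ?_⟩
      rwa [List.getD_eq_getElem _ _ hi] at h
    · rw [List.getD_eq_default _ _ (by omega)] at h
      omega

lemma rowLen_toYD {n : ℕ} (p : n.Partition) (i : ℕ) :
    (toYD p).rowLen i = row p (i + 1) := by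
  have h : ∀ j, j < (toYD p).rowLen i ↔ j < row p (i + 1) := by
    intro j
    rw [← YoungDiagram.mem_iff_lt_rowLen, mem_toYD]
    rfl
  have h1 := h ((toYD p).rowLen i)
  have h2 := h (row p (i + 1))
  omega

lemma sorted_count {l : List ℕ} (hl : l.SortedGE) (i j : ℕ) (hj : 1 ≤ j) :
    j ≤ l.getD i 0 ↔ i < (l.filter (fun x => j ≤ x)).length := by
  induction l generalizing i with
  | nil => simp; omega
  | cons a l ih =>
    have hl' : l.SortedGE := (List.pairwise_cons.1 hl.pairwise).2.sortedGE
    cases i with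
    | zero =>
      simp only [List.getD_cons_zero]
      constructor
      · intro h
        rw [List.filter_cons_of_pos (by simpa using h)]
        simp
      · intro h
        by_contra hc
        rw [List.filter_cons_of_neg (by simpa using hc)] at h
        obtain ⟨x, hx⟩ := List.exists_mem_of_length_pos h
        rw [List.mem_filter] at hx
        have := List.rel_of_pairwise_cons hl.pairwise hx.1
        simp only [decide_eq_true_eq] at hx
        omega
    | succ i =>
      simp only [List.getD_cons_succ]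
      rw [ih hl' i]
      by_cases ha : j ≤ a
      · rw [List.filter_cons_of_pos (by simpa using ha)]
        simp
      · rw [List.filter_cons_of_neg (by simpa using ha)]
        have : l.filter (fun x => decide (j ≤ x)) = [] := by
          rw [List.filter_eq_nil_iff]
          intro x hx
          have := List.rel_of_pairwise_cons hl.pairwise hx
          simp only [decide_eq_true_eq]
          omega
        rw [this]
        simp

lemma conj_row_col {n : ℕ} (p : n.Partition) : Conj (row p) (col p) := by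
  intro i j hi hj
  have h := sorted_count (sp_sorted p) (i - 1) j hj
  have hc : col p j = ((sp p).filter (fun x => j ≤ x)).length := by
    unfold col
    rw [← sp_coe p, Multiset.filter_coe, Multiset.coe_card]
  rw [hc]
  show j ≤ (sp p).getD (i - 1) 0 ↔ _
  rw [h]
  omega

lemma colLen_toYD {n : ℕ} (p : n.Partition) (j : ℕ) :
    (toYD p).colLen j = col p (j + 1) := by
  have h : ∀ i, i < (toYD p).colLen j ↔ i < col p (j + 1) := by
    intro i
    rw [← YoungDiagram.mem_iff_lt_colLen, mem_toYD]
    have := conj_row_col p (i + 1) (j + 1) (by omega) (by omega)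
    have e : row p (i + 1) = (sp p).getD i 0 := rfl
    rw [e] at this
    omega
  have h1 := h ((toYD p).colLen j)
  have h2 := h (col p (j + 1))
  omega

lemma card_cellsOfRowLens (w : List ℕ) : (YoungDiagram.cellsOfRowLens w).card = w.sum := by
  induction w with
  | nil => simp [YoungDiagram.cellsOfRowLens]
  | cons a w ih =>
    rw [YoungDiagram.cellsOfRowLens, card_union_of_disjoint, card_map, ih]
    · simp
    · rw [disjoint_left]
      rintro ⟨x, y⟩ h1 h2
      simp only [mem_product, mem_singleton, mem_range] at h1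
      simp only [mem_map] at h2
      obtain ⟨⟨c, d⟩, _, h3⟩ := h2
      simp only [Function.Embedding.prodMap, Function.Embedding.coeFn_mk, Prod.map,
        Prod.mk.injEq] at h3
      omega

lemma card_toYD {n : ℕ} (p : n.Partition) : (toYD p).card = n := by
  have : (toYD p).card = (sp p).sum := card_cellsOfRowLens (sp p)
  rw [this, ← Multiset.sum_coe, sp_coe, p.parts_sum]

lemma toYD_injective {n : ℕ} : Function.Injective (toYD : n.Partition → YoungDiagram) := by
  intro p q h
  apply Nat.Partition.ext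
  rw [← sp_coe p, ← sp_coe q]
  have hp : (toYD p).rowLens = sp p := YoungDiagram.rowLens_ofRowLens_eq_self (fun x hx =>
    p.parts_pos (by rw [← sp_coe p]; exact Multiset.mem_coe.2 hx))
  have hq : (toYD q).rowLens = sp q := YoungDiagram.rowLens_ofRowLens_eq_self (fun x hx =>
    q.parts_pos (by rw [← sp_coe q]; exact Multiset.mem_coe.2 hx))
  rw [← hp, ← hq, h]

lemma exists_toYD {n : ℕ} (μ : YoungDiagram) (hμ : μ.card = n) :
    ∃ p : n.Partition, toYD p = μ := by
  have hcard : μ.rowLens.sum = n := by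
    rw [← card_cellsOfRowLens, ← hμ]
    have := YoungDiagram.ofRowLens_to_rowLens_eq_self (μ := μ)
    conv_rhs => rw [← this]
    rfl
  let p : n.Partition := ⟨(μ.rowLens : Multiset ℕ),
    fun {i} hi => μ.pos_of_mem_rowLens i (Multiset.mem_coe.1 hi), by rw [Multiset.sum_coe, hcard]⟩
  have hsp : sp p = μ.rowLens := by
    have h1 : (sp p).Perm μ.rowLens := by
      rw [← Multiset.coe_eq_coe, sp_coe p]
    exact List.Perm.eq_of_pairwise' (sp_sorted p).pairwise μ.rowLens_sorted.pairwise h1
  refine ⟨p, ?_⟩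
  have : toYD p = YoungDiagram.ofRowLens μ.rowLens μ.rowLens_sorted := by
    unfold toYD
    congr 1
  rw [this]
  exact YoungDiagram.ofRowLens_to_rowLens_eq_self

lemma TP_iff_TY {n : ℕ} (p : n.Partition) : TP (row p) (col p) ↔ TY (toYD p) := by
  constructor
  · intro h i hi
    rw [YoungDiagram.mem_iff_lt_rowLen, rowLen_toYD] at hi
    rw [colLen_toYD, rowLen_toYD]
    exact h (i + 1) (by omega) hi
  · intro h i hi1 hi
    obtain ⟨k, rfl⟩ : ∃ k, i = k + 1 := ⟨i - 1, by omega⟩
    have hk : (k, k) ∈ toYD p := by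
      rw [YoungDiagram.mem_iff_lt_rowLen, rowLen_toYD]; omega
    have := h k hk
    rwa [colLen_toYD, rowLen_toYD] at this

lemma TP_iff_TY' {n : ℕ} (p : n.Partition) :
    TP (col p) (row p) ↔ TY (toYD p).transpose := by
  constructor
  · intro h i hi
    rw [YoungDiagram.mem_transpose, Prod.swap_prod_mk, YoungDiagram.mem_iff_lt_colLen,
      colLen_toYD] at hi
    rw [YoungDiagram.colLen_transpose, YoungDiagram.rowLen_transpose, colLen_toYD, rowLen_toYD]
    exact h (i + 1) (by omega) hi
  · intro h i hi1 hi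
    obtain ⟨k, rfl⟩ : ∃ k, i = k + 1 := ⟨i - 1, by omega⟩
    have hk : (k, k) ∈ (toYD p).transpose := by
      rw [YoungDiagram.mem_transpose, Prod.swap_prod_mk, YoungDiagram.mem_iff_lt_colLen,
        colLen_toYD]
      omega
    have := h k hk
    rwa [YoungDiagram.colLen_transpose, YoungDiagram.rowLen_transpose, colLen_toYD,
      rowLen_toYD] at this

lemma row_le {n : ℕ} (p : n.Partition) (i : ℕ) : row p i ≤ n := by
  unfold row
  by_cases hi : i - 1 < (sp p).length
  · show (sp p).getD (i - 1) 0 ≤ n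
    rw [List.getD_eq_getElem _ _ hi]
    apply Nat.Partition.le_of_mem_parts (p := p)
    rw [← sp_coe p]
    exact Multiset.mem_coe.2 (List.getElem_mem hi)
  · show (sp p).getD (i - 1) 0 ≤ n
    rw [List.getD_eq_default _ _ (by omega)]
    omega

lemma col_le {n : ℕ} (p : n.Partition) (j : ℕ) (hj : 1 ≤ j) : col p j ≤ n := by
  by_cases h : col p j = 0
  · omega
  have h1 : 1 ≤ row p (col p j) →  col p j ≤ n := by
    intro _
    have hh : (toYD p).colLen 0 ≤ (toYD p).card := by
      rw [YoungDiagram.colLen_eq_card]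
      exact card_le_card (filter_subset _ _)
    have h2 := (conj_row_col p).symm.anti (i := 1) (j := j) le_rfl hj
    rw [colLen_toYD, card_toYD] at hh
    exact h2.trans hh
  apply h1
  exact hj.trans ((conj_row_col p (col p j) j (by omega) hj).2 le_rfl)

lemma mem_cells {n : ℕ} (p : n.Partition) (i j : ℕ) :
    (i, j) ∈ cells p ↔ 1 ≤ i ∧ 1 ≤ j ∧ j ≤ row p i := by
  simp only [cells, mem_filter, mem_product, mem_Icc]
  constructor
  · rintro ⟨⟨⟨h1, _⟩, h2, _⟩, h3⟩
    exact ⟨h1, h2, h3⟩
  · rintro ⟨h1, h2, h3⟩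
    refine ⟨⟨⟨h1, ?_⟩, h2, h3.trans (row_le p i)⟩, h3⟩
    exact ((conj_row_col p i j h1 h2).1 h3).trans (col_le p j h2)

open Classical in
lemma prod_sp {n : ℕ} (p : n.Partition) :
    ∏ u ∈ cells p, ((csp (row p) (col p) u : ℚ) / (hook (row p) (col p) u : ℚ)) ^ 2 =
      if TY (toYD p) then 1 else 0 := by
  split_ifs with hT
  · rw [← TP_iff_TY] at hT
    apply prod_eq_one
    rintro ⟨i, j⟩ hu
    rw [mem_cells] at hu
    obtain ⟨hi, hj, hc⟩ := hu
    have h1 := cellA (conj_row_col p) hT hi hj hc
    have h2 : 0 < hook (row p) (col p) (i, j) := by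
      have := (conj_row_col p i j hi hj).1 hc
      unfold hook
      simp only
      omega
    have h3 : ((hook (row p) (col p) (i, j) : ℤ) : ℚ) ≠ 0 := by
      exact_mod_cast h2.ne'
    rw [div_pow]
    rw [div_eq_one_iff_eq (pow_ne_zero 2 h3)]
    exact_mod_cast h1
  · rw [← TP_iff_TY] at hT
    obtain ⟨i, j, hi, hj, hc, h0⟩ := cellB (conj_row_col p) hT n (fun i _ => row_le p i)
    apply prod_eq_zero ((mem_cells p i j).2 ⟨hi, hj, hc⟩)
    rw [h0]
    simp

lemma cO_eq (f g : ℕ → ℕ) (i j : ℕ) : cO f g (i, j) = - csp g f (j, i) := by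
  unfold cO csp
  simp only
  rcases le_or_gt j i with h | h
  · rw [if_pos h, if_neg (by omega)]; ring
  · rw [if_neg (by omega), if_pos h]; ring

lemma hook_swap (f g : ℕ → ℕ) (i j : ℕ) : hook f g (i, j) = hook g f (j, i) := by
  unfold hook
  simp only
  ring

open Classical in
lemma prod_O {n : ℕ} (p : n.Partition) :
    ∏ u ∈ cells p, ((cO (row p) (col p) u : ℚ) / (hook (row p) (col p) u : ℚ)) ^ 2 =
      if TY (toYD p).transpose then 1 else 0 := by
  split_ifs with hT
  · rw [← TP_iff_TY'] at hT
    apply prod_eq_one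
    rintro ⟨i, j⟩ hu
    rw [mem_cells] at hu
    obtain ⟨hi, hj, hc⟩ := hu
    have hc' : i ≤ col p j := (conj_row_col p i j hi hj).1 hc
    have h1 := cellA (conj_row_col p).symm hT hj hi hc'
    have h2 : 0 < hook (row p) (col p) (i, j) := by
      unfold hook
      simp only
      omega
    have h3 : ((hook (row p) (col p) (i, j) : ℤ) : ℚ) ≠ 0 := by
      exact_mod_cast h2.ne'
    rw [div_pow]
    rw [div_eq_one_iff_eq (pow_ne_zero 2 h3)]
    rw [cO_eq]
    rw [← hook_swap (row p) (col p)] at h1
    push_cast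
    rw [neg_sq]
    exact_mod_cast h1
  · rw [← TP_iff_TY'] at hT
    obtain ⟨j, i, hj, hi, hc, h0⟩ := cellB (conj_row_col p).symm hT n
      (fun j hj => col_le p j hj)
    have hc' : j ≤ row p i := (conj_row_col p i j hi hj).2 hc
    apply prod_eq_zero ((mem_cells p i j).2 ⟨hi, hj, hc'⟩)
    rw [cO_eq, h0]
    simp

/-! ### Counting -/

open Classical in
/-- finite sets of positive integers with `2 * sum = n` -/
noncomputable def DS (n : ℕ) : Finset (Finset ℕ) :=
  ((Icc 1 n).powerset).filter (fun A => 2 * ∑ a ∈ A, a = n)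

lemma mem_DS (n : ℕ) (A : Finset ℕ) : A ∈ DS n ↔ 0 ∉ A ∧ 2 * ∑ a ∈ A, a = n := by
  classical
  simp only [DS, mem_filter, mem_powerset]
  constructor
  · rintro ⟨h1, h2⟩
    refine ⟨fun h => ?_, h2⟩
    have := mem_Icc.1 (h1 h)
    omega
  · rintro ⟨h1, h2⟩
    refine ⟨fun a ha => ?_, h2⟩
    rw [mem_Icc]
    have h3 : a ≤ ∑ a ∈ A, a := single_le_sum (f := fun a => a) (fun _ _ => Nat.zero_le _) ha
    have h4 : a ≠ 0 := fun h => h1 (h ▸ ha)
    omega

open Classical in
lemma card_TY (n : ℕ) :
    ((univ : Finset n.Partition).filter (fun p => TY (toYD p))).card = (DS n).card := by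
  apply card_bij (fun p _ => AY (toYD p))
  · intro p hp
    rw [mem_filter] at hp
    rw [mem_DS]
    refine ⟨fun h => ?_, ?_⟩
    · have := AY_pos hp.2 h
      omega
    · rw [← card_eq_two_mul_sum hp.2, card_toYD]
  · intro p hp q hq h
    rw [mem_filter] at hp hq
    apply toYD_injective
    rw [← YA_AY hp.2, ← YA_AY hq.2, h]
  · intro A hA
    rw [mem_DS] at hA
    have h1 : (YA A).card = n := by
      rw [card_eq_two_mul_sum (TY_YA A), AY_YA hA.1, hA.2]
    obtain ⟨p, hp⟩ := exists_toYD (YA A) h1
    refine ⟨p, ?_, ?_⟩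
    · rw [mem_filter]
      exact ⟨mem_univ _, by rw [hp]; exact TY_YA A⟩
    · rw [hp, AY_YA hA.1]

lemma card_transpose (μ : YoungDiagram) : μ.transpose.card = μ.card := by
  unfold YoungDiagram.card YoungDiagram.transpose
  simp

open Classical in
lemma card_TY' (n : ℕ) :
    ((univ : Finset n.Partition).filter (fun p => TY (toYD p).transpose)).card =
      (DS n).card := by
  rw [← card_TY]
  apply card_bij (fun p _ => (exists_toYD (n := n) (toYD p).transpose
    (by rw [card_transpose, card_toYD])).choose)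
  · intro p hp
    rw [mem_filter] at hp ⊢
    refine ⟨mem_univ _, ?_⟩
    rw [(exists_toYD (n := n) (toYD p).transpose
      (by rw [card_transpose, card_toYD])).choose_spec]
    exact hp.2
  · intro p hp q hq h
    have h1 := (exists_toYD (n := n) (toYD p).transpose
      (by rw [card_transpose, card_toYD])).choose_spec
    have h2 := (exists_toYD (n := n) (toYD q).transpose
      (by rw [card_transpose, card_toYD])).choose_spec
    rw [h, h2] at h1
    apply toYD_injective
    exact (YoungDiagram.transpose_eq_iff.1 h1).symm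
  · intro q hq
    rw [mem_filter] at hq
    obtain ⟨p, hp⟩ := exists_toYD (n := n) (toYD q).transpose
      (by rw [card_transpose, card_toYD])
    refine ⟨p, ?_, ?_⟩
    · rw [mem_filter, hp, YoungDiagram.transpose_transpose]
      exact ⟨mem_univ _, hq.2⟩
    · apply toYD_injective
      rw [(exists_toYD (n := n) (toYD p).transpose
        (by rw [card_transpose, card_toYD])).choose_spec, hp, YoungDiagram.transpose_transpose]

lemma card_DS_odd {n : ℕ} (hn : n % 2 = 1) : (DS n).card = 0 := by
  rw [card_eq_zero, eq_empty_iff_forall_notMem]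
  intro A hA
  rw [mem_DS] at hA
  omega

lemma card_DS_even (m : ℕ) : (DS (2 * m)).card = (Nat.Partition.distincts m).card := by
  refine card_bij' (fun A hA => (⟨A.val, by
      intro i hi
      rw [mem_DS] at hA
      exact Nat.pos_of_ne_zero (fun h => hA.1 (h ▸ hi)), by
      rw [mem_DS] at hA
      have : A.val.sum = ∑ a ∈ A, a := by
        rw [Finset.sum_eq_multiset_sum, Multiset.map_id']
      omega⟩ : m.Partition))
    (fun q _ => q.parts.toFinset) ?_ ?_ ?_ ?_
  · intro A hA
    simp only [Nat.Partition.distincts, mem_filter, mem_univ, true_and]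
    exact A.nodup
  · intro q hq
    simp only [Nat.Partition.distincts, mem_filter, mem_univ, true_and] at hq
    rw [mem_DS]
    refine ⟨fun h => ?_, ?_⟩
    · have := q.parts_pos (Multiset.mem_toFinset.1 h)
      omega
    · have h1 : ∑ a ∈ q.parts.toFinset, a = q.parts.sum := by
        rw [Finset.sum_eq_multiset_sum, Multiset.map_id', Multiset.toFinset_val,
          Multiset.dedup_eq_self.2 hq]
      rw [h1, q.parts_sum]
  · intro A hA
    ext a
    simp
  · intro q hq
    simp only [Nat.Partition.distincts, mem_filter, mem_univ, true_and] at hq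
    apply Nat.Partition.ext
    simp only [Multiset.toFinset_val]
    exact Multiset.dedup_eq_self.2 hq

lemma restricted_odd {n : ℕ} (hn : n % 2 = 1) :
    (Nat.Partition.restricted n (fun i => i % 4 = 2)).card = 0 := by
  rw [card_eq_zero, eq_empty_iff_forall_notMem]
  intro p hp
  simp only [Nat.Partition.restricted, mem_filter, mem_univ, true_and] at hp
  have h2 : 2 ∣ p.parts.sum := Multiset.dvd_sum (fun x hx => by have := hp x hx; omega)
  rw [p.parts_sum] at h2
  omega

lemma restricted_even (m : ℕ) :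
    (Nat.Partition.restricted (2 * m) (fun i => i % 4 = 2)).card =
      (Nat.Partition.odds m).card := by
  symm
  apply card_bij (fun q _ => (⟨q.parts.map (fun x => 2 * x), by
      intro i hi
      rw [Multiset.mem_map] at hi
      obtain ⟨a, ha, rfl⟩ := hi
      have := q.parts_pos ha
      omega, by
      rw [Multiset.sum_map_mul_left, Multiset.map_id', q.parts_sum]⟩ : (2 * m).Partition))
  · intro q hq
    simp only [Nat.Partition.odds, Nat.Partition.restricted, mem_filter, mem_univ,
      true_and] at hq ⊢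
    intro i hi
    rw [Multiset.mem_map] at hi
    obtain ⟨a, ha, rfl⟩ := hi
    have := hq a ha
    rw [Nat.not_even_iff] at this
    omega
  · intro q _ q' _ h
    apply Nat.Partition.ext
    have h1 : q.parts.map (fun x => 2 * x) = q'.parts.map (fun x => 2 * x) :=
      congrArg Nat.Partition.parts h
    exact Multiset.map_injective (fun a b hab => by simpa using hab) h1
  · intro p hp
    simp only [Nat.Partition.restricted, mem_filter, mem_univ, true_and] at hp
    have hmap : (p.parts.map (fun x => x / 2)).map (fun x => 2 * x) = p.parts := by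
      rw [Multiset.map_map]
      conv_rhs => rw [← Multiset.map_id' p.parts]
      apply Multiset.map_congr rfl
      intro x hx
      have := hp x hx
      simp only [Function.comp]
      omega
    refine ⟨⟨p.parts.map (fun x => x / 2), ?_, ?_⟩, ?_, ?_⟩
    · intro i hi
      rw [Multiset.mem_map] at hi
      obtain ⟨a, ha, rfl⟩ := hi
      have := hp a ha
      omega
    · have h1 := congrArg Multiset.sum hmap
      rw [Multiset.sum_map_mul_left, Multiset.map_id', p.parts_sum] at h1
      omega
    · simp only [Nat.Partition.odds, Nat.Partition.restricted, mem_filter, mem_univ, true_and]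
      intro i hi
      rw [Multiset.mem_map] at hi
      obtain ⟨a, ha, rfl⟩ := hi
      have := hp a ha
      rw [Nat.not_even_iff]
      omega
    · apply Nat.Partition.ext
      exact hmap

lemma card_DS (n : ℕ) :
    (DS n).card = (Nat.Partition.restricted n (fun i => i % 4 = 2)).card := by
  rcases Nat.even_or_odd' n with ⟨m, rfl | rfl⟩
  · rw [card_DS_even, restricted_even, Nat.Partition.card_odds_eq_card_distincts]
  · rw [card_DS_odd (by omega), restricted_odd (by omega)]

lemma Ssp_eq (n : ℕ) : Ssp n = ((Nat.Partition.restricted n (fun i => i % 4 = 2)).card : ℚ) := by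
  classical
  unfold Ssp
  simp_rw [prod_sp]
  rw [← card_DS, ← card_TY, card_filter]
  push_cast
  rfl

lemma SO_eq (n : ℕ) : SO n = ((Nat.Partition.restricted n (fun i => i % 4 = 2)).card : ℚ) := by
  classical
  unfold SO
  simp_rw [prod_O]
  rw [← card_DS, ← card_TY', card_filter]
  push_cast
  rfl

open PowerSeries in
open scoped PowerSeries.WithPiTopology in
lemma hasProd_main [TopologicalSpace ℚ] [T2Space ℚ] [IsTopologicalRing ℚ] :
    HasProd (fun j : ℕ => ((1 - X ^ (4 * (j + 1) - 2) : ℚ⟦X⟧))⁻¹)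
      (PowerSeries.mk (fun n =>
        ((Nat.Partition.restricted n (fun i => i % 4 = 2)).card : ℚ))) := by
  have h := Nat.Partition.hasProd_powerSeriesMk_card_restricted ℚ (fun i => i % 4 = 2)
  have hinj : Function.Injective (fun j : ℕ => 4 * j + 1) := by
    intro a b hab
    simp only at hab
    omega
  rw [← hinj.hasProd_iff] at h
  · have e : (fun j : ℕ => ((1 - X ^ (4 * (j + 1) - 2) : ℚ⟦X⟧))⁻¹) =
        (fun i => if (i + 1) % 4 = 2 then ∑' (j : ℕ), (X : ℚ⟦X⟧) ^ ((i + 1) * j) else 1) ∘
          fun j => 4 * j + 1 := ?_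
    · rw [e]; exact h
    ext1 j
    simp only [Function.comp]
    rw [if_pos (by omega)]
    rw [show 4 * (j + 1) - 2 = 4 * j + 1 + 1 by omega]
    have hx : (X ^ (4 * j + 1 + 1) : ℚ⟦X⟧).constantCoeff = 0 := by simp
    have h1 := PowerSeries.WithPiTopology.tsum_pow_mul_one_sub_of_constantCoeff_eq_zero hx
    simp_rw [pow_mul]
    symm
    rw [PowerSeries.eq_inv_iff_mul_eq_one]
    · exact h1
    · simp
  · intro x hx
    rw [if_neg]
    intro h2
    apply hx
    exact ⟨(x + 1) / 4, by simp only; omega⟩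

open PowerSeries in
open scoped PowerSeries.WithPiTopology in
/-- **Q1 of MP_80d245_co, affirmative.** The two generating functions agree, and both equal the
infinite product `∏_{j ≥ 1} (1 - X ^ (4 j - 2))⁻¹` (convergence in the power series ring with
discrete coefficients, i.e. coefficientwise stabilisation of the finite products); equivalently,
`S_sp(n)` and `S_O(n)` are the number of partitions of `n` into parts congruent to `2` mod `4`. -/
theorem result :
    PowerSeries.mk Ssp = PowerSeries.mk SO ∧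
    (letI : TopologicalSpace ℚ := ⊥
     HasProd (fun j : ℕ => ((1 - X ^ (4 * (j + 1) - 2) : ℚ⟦X⟧))⁻¹) (PowerSeries.mk Ssp)) ∧
    ∀ n : ℕ,
      Ssp n = (((univ : Finset n.Partition).filter
        (fun p => ∀ i ∈ p.parts, i % 4 = 2)).card : ℚ) ∧
      SO n = (((univ : Finset n.Partition).filter
        (fun p => ∀ i ∈ p.parts, i % 4 = 2)).card : ℚ) := by
  refine ⟨?_, ?_, fun n => ⟨Ssp_eq n, SO_eq n⟩⟩
  · ext n
    simp only [PowerSeries.coeff_mk]
    rw [Ssp_eq, SO_eq]
  · let _ : TopologicalSpace ℚ := ⊥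
    have _ : DiscreteTopology ℚ := ⟨rfl⟩
    have e : Ssp = fun n => ((Nat.Partition.restricted n (fun i => i % 4 = 2)).card : ℚ) :=
      funext Ssp_eq
    rw [e]
    exact hasProd_main

end Pool.Agent.Results.MP_80d245_co.SquaredContents
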